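import Pool.Agent.Helper21.LQ.Defs

set_option autoImplicit false

/-!
# LQ, module STAR: the cut inequality of a star
-/

namespace Pool.Agent.Helper21.LQ

open Finset

/-- The purely numerical part: from the key inequality to `3 x < 5 a`. -/
theorem star_num1 {x a u θ δ₁ : ℝ} (hθ : 0 < θ) (hθ1 : θ ≤ 1) (hδ1 : 0 ≤ δ₁) (hδθ : δ₁ ≤ θ / 8)
    (hx : 0 ≤ x) (ha : 0 ≤ a) (hu : u ≤ (1 + δ₁) * a)
    (hkey : (1 + θ) * ((1 - δ₁) * x - u) + a < x) : 3 * x < 5 * a := by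
  have h1 : θ * δ₁ ≤ δ₁ := by nlinarith
  have h2 : (1 + θ) * u ≤ (1 + θ) * ((1 + δ₁) * a) := mul_le_mul_of_nonneg_left hu (by linarith)
  have h3 : x * (θ - δ₁ - θ * δ₁) < a * (θ + δ₁ + θ * δ₁) := by nlinarith
  have h4 : x * (3 / 4 * θ) ≤ x * (θ - δ₁ - θ * δ₁) :=
    mul_le_mul_of_nonneg_left (by linarith) hx
  have h5 : a * (θ + δ₁ + θ * δ₁) ≤ a * (5 / 4 * θ) :=
    mul_le_mul_of_nonneg_left (by linarith) ha
  have h6 : θ * (3 * x) < θ * (5 * a) := by nlinarith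
  exact lt_of_mul_lt_mul_left h6 hθ.le

/-- The purely numerical part: `u` is nearly `a`. -/
theorem star_num2 {x a u θ δ₁ : ℝ} (hθ : 0 < θ) (hθ1 : θ ≤ 1) (hδ1 : 0 ≤ δ₁) (hδθ : δ₁ ≤ θ / 8)
    (ha : 0 ≤ a) (hax : a ≤ x)
    (hkey : (1 + θ) * ((1 - δ₁) * x - u) + a < x) : (1 - 2 * δ₁) * a ≤ u := by
  have h1 : θ * δ₁ ≤ δ₁ := by nlinarith
  have h2 : a * (θ - 2 * δ₁) ≤ x * (θ - δ₁ - θ * δ₁) := by
    have h21 : a * (θ - 2 * δ₁) ≤ x * (θ - 2 * δ₁) :=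
      mul_le_mul_of_nonneg_right hax (by linarith)
    have h22 : x * (θ - 2 * δ₁) ≤ x * (θ - δ₁ - θ * δ₁) :=
      mul_le_mul_of_nonneg_left (by linarith) (by linarith)
    linarith
  have h3 : a + a * (θ - 2 * δ₁) < (1 + θ) * u := by nlinarith
  have h4 : (1 + θ) * ((1 - 2 * δ₁) * a) ≤ a + a * (θ - 2 * δ₁) := by
    have : 0 ≤ 2 * θ * δ₁ * a := by positivity
    nlinarith
  have h5 : (1 + θ) * ((1 - 2 * δ₁) * a) < (1 + θ) * u := lt_of_le_of_lt h4 h3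
  exact (lt_of_mul_lt_mul_left h5 (by linarith)).le

/-- The purely numerical part: the complement `Z` is small. -/
theorem star_num3 {x a z D Xm θ δ₀ δ₁ δ₄ : ℝ} (hD : 0 < D) (hXm : 1 ≤ Xm) (_hθ : 0 < θ)
    (h32 : 32 * θ ≤ δ₀) (_hδ1 : 0 ≤ δ₁) (hδθ : δ₁ ≤ θ / 8) (hδ4 : 0 ≤ δ₄)
    (h16 : 16 * Xm * δ₄ ≤ δ₀) (hxa : 3 * x < 5 * a) (hDx : D ≤ 2 * x * Xm) (ha : 0 < a)
    (hz : a * (z / D - δ₀) - δ₄ * D ≤ 3 * δ₁ * a) : z ≤ 2 * δ₀ * D := by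
  have hXp : 0 < Xm := by linarith
  have h1 : 3 * D ≤ 10 * a * Xm := by
    have : 3 * x * Xm ≤ 5 * a * Xm := mul_le_mul_of_nonneg_right hxa.le hXp.le
    nlinarith
  have h2 : δ₄ * (3 * D) ≤ δ₄ * (10 * a * Xm) := mul_le_mul_of_nonneg_left h1 hδ4
  have h3 : δ₄ * D ≤ 10 / 48 * δ₀ * a := by
    have : a * (16 * Xm * δ₄) ≤ a * δ₀ := mul_le_mul_of_nonneg_left h16 ha.le
    nlinarith
  have h4 : a * (z / D) ≤ a * (2 * δ₀) := by
    have : a * (3 * δ₁) ≤ a * (3 / 256 * δ₀) := mul_le_mul_of_nonneg_left (by linarith) ha.le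
    nlinarith
  have h5 : z / D ≤ 2 * δ₀ := le_of_mul_le_mul_left h4 ha
  rwa [div_le_iff₀ hD] at h5

/-- The purely numerical part: the last case. -/
theorem star_num4 {x f u D θ η δ₁ δ₄ : ℝ} (hD : 0 < D) (hθ : 0 < θ) (hθ1 : θ ≤ 1)
    (hδ1 : 0 ≤ δ₁) (hδ4 : 0 ≤ δ₄) (hx : D / 4 ≤ x) (hxD : x ≤ D) (hf : 0 ≤ f)
    (hfD : f ≤ (1 - η) * D) (hη : 2 * δ₁ + 8 * δ₄ ≤ θ * η)
    (hu : u ≤ x * f / D + δ₄ * D)
    (hkey : (1 + θ) * ((1 - δ₁) * x - u) + f < x) : False := by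
  have hx0 : 0 ≤ x := by linarith
  have h1 : (1 + θ) * u ≤ (1 + θ) * (x * f / D + δ₄ * D) :=
    mul_le_mul_of_nonneg_left hu (by linarith)
  have e1 : x * f / D = x * (f / D) := by ring
  have hfD' : f / D ≤ 1 - η := by rw [div_le_iff₀ hD]; exact hfD
  have hf0 : 0 ≤ f / D := div_nonneg hf hD.le
  have e2 : f = D * (f / D) := by field_simp
  have h2 : x * (f / D) ≤ D * (f / D) := mul_le_mul_of_nonneg_right hxD hf0
  have h3 : (θ * x) * (f / D) ≤ (θ * x) * (1 - η) :=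
    mul_le_mul_of_nonneg_left hfD' (by positivity)
  have h4 : (1 + θ) * (δ₄ * D) ≤ 8 * δ₄ * x := by
    have h41 : θ * (δ₄ * D) ≤ 1 * (δ₄ * D) := mul_le_mul_of_nonneg_right hθ1 (by positivity)
    have h42 : δ₄ * (D / 4) ≤ δ₄ * x := mul_le_mul_of_nonneg_left hx hδ4
    nlinarith
  have h5 : θ * δ₁ * x ≤ δ₁ * x := by
    have : θ * (δ₁ * x) ≤ 1 * (δ₁ * x) := mul_le_mul_of_nonneg_right hθ1 (by positivity)
    linarith
  have h6 : (2 * δ₁ + 8 * δ₄) * x ≤ θ * η * x := mul_le_mul_of_nonneg_right hη hx0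
  rw [e1] at h1
  nlinarith

/-- Module STAR. -/
theorem st_STAR : ST_STAR := by
  intro R Γ _ _ _ _ E F w D Xm d' δ₀ θ η δ₁ δ₄ hD hXm hθ hθd hd1 h32 hδ1 hδθ hδ4 h16 h8 hE hw
    hrow hcolU hcolL hcolN hdl hdu hcase S hS
  by_contra hlt
  push Not at hlt
  have hθ1 : θ ≤ 1 := le_trans hθd hd1
  have hd0 : 0 ≤ d' := by linarith
  set W : Γ → ℝ := fun γ => ∑ r ∈ S, w r γ with hWdef
  have hlt' : ∑ γ, min 1 ((1 + d') * W γ) < (S.card : ℝ) := hlt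
  have hW0 : ∀ γ, 0 ≤ W γ := fun γ => sum_nonneg fun r _ => (hw r γ).1
  have hWE : ∀ γ, W γ ≤ ∑ r ∈ E, w r γ := fun γ =>
    sum_le_sum_of_subset_of_nonneg hS fun r _ _ => (hw r γ).1
  have hx0 : (0 : ℝ) ≤ (S.card : ℝ) := Nat.cast_nonneg _
  -- the heavy colours
  set F1 : Finset Γ := F.filter (fun γ => 1 ≤ (1 + d') * W γ) with hF1
  have hmin0 : ∀ γ, 0 ≤ min 1 ((1 + d') * W γ) := fun γ =>
    le_min zero_le_one (mul_nonneg (by linarith) (hW0 γ))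
  have hminN : ∀ γ, γ ∉ F1 → (1 + θ) * W γ ≤ min 1 ((1 + d') * W γ) := by
    intro γ hγ
    have hle : (1 + θ) * W γ ≤ (1 + d') * W γ :=
      mul_le_mul_of_nonneg_right (by linarith) (hW0 γ)
    by_cases hF : γ ∈ F
    · have : (1 + d') * W γ < 1 := by
        by_contra hc
        exact hγ (mem_filter.mpr ⟨hF, not_lt.mp hc⟩)
      exact le_min (by linarith) hle
    · refine le_min ?_ hle
      have h1 : W γ ≤ 1 - θ := le_trans (hWE γ) (hcolN γ hF)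
      have h2 : (1 + θ) * W γ ≤ (1 + θ) * (1 - θ) := mul_le_mul_of_nonneg_left h1 (by linarith)
      nlinarith
  have hmin1 : ∀ γ ∈ F1, min 1 ((1 + d') * W γ) = 1 := fun γ hγ =>
    min_eq_left (mem_filter.mp hγ).2
  have hsplit : ∀ g : Γ → ℝ, ∑ γ, g γ = ∑ γ ∈ F1, g γ + ∑ γ ∈ univ \ F1, g γ := by
    intro g
    rw [add_comm, sum_sdiff (subset_univ F1)]
  have hsum1 : ∑ γ ∈ F1, min 1 ((1 + d') * W γ) = (F1.card : ℝ) := by
    rw [sum_congr rfl hmin1]; simp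
  have htot : (1 - δ₁) * (S.card : ℝ) ≤ ∑ γ, W γ := by
    have e1 : ∑ γ, W γ = ∑ r ∈ S, ∑ γ, w r γ := sum_comm
    rw [e1]
    calc (1 - δ₁) * (S.card : ℝ) = ∑ _r ∈ S, (1 - δ₁) := by rw [sum_const, nsmul_eq_mul]; ring
      _ ≤ ∑ r ∈ S, ∑ γ, w r γ := sum_le_sum fun r hr => hrow r (hS hr)
  set u : ℝ := ∑ γ ∈ F1, W γ with hu
  have hrest : ∑ γ ∈ univ \ F1, (1 + θ) * W γ ≤ ∑ γ ∈ univ \ F1, min 1 ((1 + d') * W γ) :=
    sum_le_sum fun γ hγ => hminN γ (mem_sdiff.mp hγ).2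
  have hkey : (1 + θ) * ((1 - δ₁) * (S.card : ℝ) - u) + (F1.card : ℝ) < (S.card : ℝ) := by
    have h1 := hsplit (fun γ => min 1 ((1 + d') * W γ))
    have h2 := hsplit W
    rw [hsum1] at h1
    rw [← mul_sum] at hrest
    have h3 : (1 + θ) * ((1 - δ₁) * (S.card : ℝ) - u) ≤ (1 + θ) * ∑ γ ∈ univ \ F1, W γ :=
      mul_le_mul_of_nonneg_left (by linarith) (by linarith)
    linarith
  have hF1sub : F1 ⊆ F := filter_subset _ _
  have ha0 : (0 : ℝ) ≤ (F1.card : ℝ) := Nat.cast_nonneg _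
  have hax : (F1.card : ℝ) < (S.card : ℝ) := by
    have h1 := hsplit (fun γ => min 1 ((1 + d') * W γ))
    rw [hsum1] at h1
    have h2 : 0 ≤ ∑ γ ∈ univ \ F1, min 1 ((1 + d') * W γ) := sum_nonneg fun γ _ => hmin0 γ
    linarith
  have huU : u ≤ (1 + δ₁) * (F1.card : ℝ) := by
    calc u ≤ ∑ _γ ∈ F1, (1 + δ₁) :=
          sum_le_sum fun γ hγ => le_trans (hWE γ) (hcolU γ (hF1sub hγ))
      _ = (1 + δ₁) * (F1.card : ℝ) := by rw [sum_const, nsmul_eq_mul]; ring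
  have h35 : 3 * (S.card : ℝ) < 5 * (F1.card : ℝ) :=
    star_num1 hθ hθ1 hδ1 hδθ hx0 ha0 huU hkey
  have ha : (0 : ℝ) < (F1.card : ℝ) := by linarith
  have huL : (1 - 2 * δ₁) * (F1.card : ℝ) ≤ u :=
    star_num2 hθ hθ1 hδ1 hδθ ha0 hax.le hkey
  -- the complement
  set Z : Finset R := E \ S with hZ
  have hZE : Z ⊆ E := sdiff_subset
  have hcomp : ∀ γ, ∑ r ∈ Z, w r γ = ∑ r ∈ E, w r γ - W γ := by
    intro γ
    have : ∑ r ∈ Z, w r γ + W γ = ∑ r ∈ E, w r γ := sum_sdiff hS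
    linarith
  have hZF : ∑ r ∈ Z, ∑ γ ∈ F1, w r γ ≤ 3 * δ₁ * (F1.card : ℝ) := by
    rw [sum_comm]
    have h1 : ∑ γ ∈ F1, ∑ r ∈ Z, w r γ ≤ ∑ γ ∈ F1, ((1 + δ₁) - W γ) :=
      sum_le_sum fun γ hγ => by
        rw [hcomp γ]; linarith [hcolU γ (hF1sub hγ)]
    rw [sum_sub_distrib, sum_const, nsmul_eq_mul] at h1
    have h2 : ∑ γ ∈ F1, W γ = u := rfl
    rw [h2] at h1
    linarith
  have hz1 : (F1.card : ℝ) * ((Z.card : ℝ) / D - δ₀) - δ₄ * D ≤ 3 * δ₁ * (F1.card : ℝ) :=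
    le_trans (hdl Z hZE F1 hF1sub) hZF
  have hne : F1.Nonempty := by
    rw [← card_pos]
    exact_mod_cast ha
  have hDx : D ≤ 2 * (S.card : ℝ) * Xm := by
    obtain ⟨γ, hγ⟩ := hne
    have h1 : 1 ≤ (1 + d') * W γ := (mem_filter.mp hγ).2
    have h2 : W γ ≤ (S.card : ℝ) * (Xm / D) := by
      calc W γ ≤ ∑ _r ∈ S, Xm / D := sum_le_sum fun r _ => (hw r γ).2
        _ = (S.card : ℝ) * (Xm / D) := by rw [sum_const, nsmul_eq_mul]
    have h3 : (1 + d') * W γ ≤ 2 * W γ := mul_le_mul_of_nonneg_right (by linarith) (hW0 γ)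
    have h4 : 1 ≤ 2 * (S.card : ℝ) * Xm / D := by
      have : 2 * (S.card : ℝ) * Xm / D = 2 * ((S.card : ℝ) * (Xm / D)) := by ring
      rw [this]; linarith
    rwa [le_div_iff₀ hD, one_mul] at h4
  have hzD : (Z.card : ℝ) ≤ 2 * δ₀ * D :=
    star_num3 hD hXm hθ h32 hδ1 hδθ hδ4 h16 h35 hDx ha hz1
  have hδ00 : 0 < δ₀ := by linarith
  -- all full colours are heavy
  have hF1F : F1 = F := by
    refine subset_antisymm hF1sub fun γ hγ => mem_filter.mpr ⟨hγ, ?_⟩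
    have h1 : ∑ r ∈ Z, w r γ ≤ (Z.card : ℝ) * (Xm / D) := by
      calc ∑ r ∈ Z, w r γ ≤ ∑ _r ∈ Z, Xm / D := sum_le_sum fun r _ => (hw r γ).2
        _ = (Z.card : ℝ) * (Xm / D) := by rw [sum_const, nsmul_eq_mul]
    have hXD : 0 ≤ Xm / D := div_nonneg (by linarith) hD.le
    have h2 : (Z.card : ℝ) * (Xm / D) ≤ 2 * δ₀ * D * (Xm / D) :=
      mul_le_mul_of_nonneg_right hzD hXD
    have h3 : 2 * δ₀ * D * (Xm / D) = 2 * δ₀ * Xm := by field_simp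
    have h4 : 1 - 4 * δ₀ * Xm ≤ W γ := by
      have h41 := hcomp γ
      have h42 := hcolL γ hγ
      have h43 : δ₀ * 1 ≤ δ₀ * Xm := mul_le_mul_of_nonneg_left hXm hδ00.le
      nlinarith
    have ht : 8 * δ₀ * Xm ≤ 1 := le_trans h8 hd1
    have ht0 : 0 ≤ δ₀ * Xm := by positivity
    have h5 : (1 + 8 * δ₀ * Xm) * (1 - 4 * δ₀ * Xm) ≤ (1 + d') * W γ :=
      mul_le_mul (by linarith) h4 (by linarith) (by linarith)
    have h6 : 1 ≤ (1 + 8 * δ₀ * Xm) * (1 - 4 * δ₀ * Xm) := by nlinarith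
    linarith
  rcases hcase with h | h | ⟨hf, hE2, hη⟩
  · rw [hF1F, h] at ha
    simp at ha
  · rw [hF1F] at hax
    have h1 : (S.card : ℝ) ≤ (E.card : ℝ) := by exact_mod_cast card_le_card hS
    have h2 : (E.card : ℝ) ≤ (F.card : ℝ) := by exact_mod_cast h
    linarith
  · have hcard : (Z.card : ℝ) + (S.card : ℝ) = (E.card : ℝ) := by
      exact_mod_cast card_sdiff_add_card_eq_card hS
    have hxD : (S.card : ℝ) ≤ D := by
      have : (S.card : ℝ) ≤ (E.card : ℝ) := by exact_mod_cast card_le_card hS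
      linarith
    have hδ8 : 8 * δ₀ ≤ 1 := by
      have : 8 * δ₀ * 1 ≤ 8 * δ₀ * Xm := mul_le_mul_of_nonneg_left hXm (by linarith)
      linarith
    have hx4 : D / 4 ≤ (S.card : ℝ) := by nlinarith
    have huu : u ≤ (S.card : ℝ) * (F.card : ℝ) / D + δ₄ * D := by
      have h1 := hdu S hS F subset_rfl
      rw [sum_comm] at h1
      have h2 : u = ∑ γ ∈ F, ∑ r ∈ S, w r γ := by rw [hu, hF1F]
      rw [h2]; exact h1
    rw [hF1F] at hkey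
    exact star_num4 hD hθ hθ1 hδ1 hδ4 hx4 hxD (Nat.cast_nonneg _) hf hη huu hkey

end Pool.Agent.Helper21.LQ
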